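import Pool.Agent.Y300.KS.Stm

/-! Kostlan systems: boxes of different cells are disjoint; the field in a cell. -/

set_option autoImplicit false

open Set MeasureTheory ProbabilityTheory Filter Topology

namespace Pool.Agent.Y232.KS

open Pool.Agent.K300 Pool.Agent.Y300.KS

theorem log_exp_aux {x y : ℝ} (hx : 0 < x) (hy : 0 < y) (hx1 : x ≤ 1) (hxy : y ≤ x) :
    (x - y) ^ 2 ≤ (Real.log x - Real.log y) * (x - y) := by
  have h1 : Real.log y - Real.log x ≤ y / x - 1 := by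
    rw [← Real.log_div hy.ne' hx.ne']
    exact Real.log_le_sub_one_of_pos (by positivity)
  have h2 : x - y ≤ 1 - y / x := by
    have : 1 - y / x = (x - y) / x := by field_simp
    rw [this, le_div_iff₀ hx]
    nlinarith
  nlinarith

theorem log_exp {x y : ℝ} (hx : 0 < x) (hy : 0 < y) (hx1 : x ≤ 1) (hy1 : y ≤ 1) :
    (x - y) ^ 2 ≤ (Real.log x - Real.log y) * (x - y) := by
  rcases le_total y x with h | h
  · exact log_exp_aux hx hy hx1 h
  · have := log_exp_aux hy hx hy1 h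
    nlinarith

theorem sep {a b c a' b' c' e : ℝ} (ha : 0 < a) (hb : 0 < b) (hc : 0 < c) (ha' : 0 < a')
    (hb' : 0 < b') (hc' : 0 < c') (hs : a + b + c = 1) (hs' : a' + b' + c' = 1)
    (h1 : |(Real.log a - Real.log c) / 2 - (Real.log a' - Real.log c') / 2| ≤ e)
    (h2 : |(Real.log b - Real.log c) / 2 - (Real.log b' - Real.log c') / 2| ≤ e) :
    |a - a'| + |b - b'| ≤ 4 * e := by
  have k1 := log_exp ha ha' (by linarith) (by linarith)
  have k2 := log_exp hb hb' (by linarith) (by linarith)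
  have k3 := log_exp hc hc' (by linarith) (by linarith)
  have hcc : c - c' = -((a - a') + (b - b')) := by linarith
  have m1 : ((Real.log a - Real.log c) / 2 - (Real.log a' - Real.log c') / 2) * (a - a') ≤
      e * |a - a'| := by
    refine (le_abs_self _).trans ?_
    rw [abs_mul]
    exact mul_le_mul_of_nonneg_right h1 (abs_nonneg _)
  have m2 : ((Real.log b - Real.log c) / 2 - (Real.log b' - Real.log c') / 2) * (b - b') ≤
      e * |b - b'| := by
    refine (le_abs_self _).trans ?_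
    rw [abs_mul]
    exact mul_le_mul_of_nonneg_right h2 (abs_nonneg _)
  have m3 : ((a - a') ^ 2 + (b - b') ^ 2) / 2 ≤ e * (|a - a'| + |b - b'|) := by
    have e0 : (0 : ℝ) ≤ (c - c') ^ 2 := sq_nonneg _
    have k3' : (c - c') ^ 2 ≤ (Real.log c - Real.log c') * (-((a - a') + (b - b'))) := by
      have : (Real.log c - Real.log c') * (-((a - a') + (b - b'))) =
        (Real.log c - Real.log c') * (c - c') := by rw [hcc]
      rw [this]
      exact k3
    nlinarith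
  have n1 : |a - a'| ^ 2 = (a - a') ^ 2 := sq_abs _
  have n2 : |b - b'| ^ 2 = (b - b') ^ 2 := sq_abs _
  obtain ⟨X, hX⟩ : ∃ X, X = |a - a'| := ⟨_, rfl⟩
  obtain ⟨Y, hY⟩ : ∃ Y, Y = |b - b'| := ⟨_, rfl⟩
  have hX0 : 0 ≤ X := by rw [hX]; exact abs_nonneg _
  have hY0 : 0 ≤ Y := by rw [hY]; exact abs_nonneg _
  rw [← n1, ← n2, ← hX, ← hY] at m3
  rw [← hX, ← hY]
  rcases eq_or_lt_of_le (add_nonneg hX0 hY0) with h | h
  · have he : 0 ≤ e := (abs_nonneg _).trans h1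
    linarith
  · have : (X + Y) * (X + Y) ≤ 4 * e * (X + Y) := by nlinarith [sq_nonneg (X - Y)]
    exact le_of_mul_le_mul_right this h

theorem coord {n K L : ℕ} (hK : 0 < K) (hL : 0 < L) (hn : 0 < n) (t : ℝ) :
    Real.log (√((L : ℝ) / (K : ℝ)) * Real.exp t) =
      (Real.log ((L : ℝ) / n) - Real.log ((K : ℝ) / n)) / 2 + t := by
  have hK' : (0 : ℝ) < K := by exact_mod_cast hK
  have hL' : (0 : ℝ) < L := by exact_mod_cast hL
  have hn' : (0 : ℝ) < n := by exact_mod_cast hn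
  have h1 : (0 : ℝ) < √((L : ℝ) / (K : ℝ)) := Real.sqrt_pos.2 (by positivity)
  rw [Real.log_mul h1.ne' (Real.exp_pos _).ne', Real.log_exp, Real.log_sqrt (by positivity),
    Real.log_div hL'.ne' hK'.ne', Real.log_div hL'.ne' hn'.ne', Real.log_div hK'.ne' hn'.ne']
  ring

theorem cen_pos {n I J : ℕ} (h : Cen n I J) (hn : 0 < n) :
    0 < I ∧ 0 < J ∧ 0 < n - I - J ∧ I + J + (n - I - J) = n := by
  obtain ⟨h1, h2, h3⟩ := h
  refine ⟨by omega, by omega, by omega, by omega⟩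

theorem abs_shift {x y s t B : ℝ} (h : x + s = y + t) (hs : |s| ≤ B) (ht : |t| ≤ B) :
    |x - y| ≤ 2 * B := by
  have : x - y = t - s := by linarith
  rw [this]
  have := abs_sub t s
  linarith

theorem geo_all : S_GEO := by
  intro B hB
  refine ⟨⌈32 * B⌉₊ + 1, by omega, 1, ?_⟩
  intro n hn I J I' J' hc hc' hsep
  obtain ⟨a1, a2, a3, a4⟩ := cen_pos hc hn
  obtain ⟨b1, b2, b3, b4⟩ := cen_pos hc' hn
  obtain ⟨K, hK⟩ : ∃ K, K = n - I - J := ⟨_, rfl⟩
  obtain ⟨K', hK'⟩ : ∃ K', K' = n - I' - J' := ⟨_, rfl⟩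
  obtain ⟨D, hD⟩ : ∃ D, D = ⌈32 * B⌉₊ + 1 := ⟨_, rfl⟩
  rw [← hD] at hsep
  have hell : 1 ≤ ell n := by
    show 1 ≤ Nat.sqrt n
    exact Nat.sqrt_pos.2 hn
  have hell2 : n ≤ 4 * (ell n * ell n) := by
    have h1 : n < (ell n + 1) * (ell n + 1) := Nat.lt_succ_sqrt n
    nlinarith
  have hellr : (0 : ℝ) < ell n := by exact_mod_cast hell
  have hnr : (0 : ℝ) < n := by exact_mod_cast hn
  rw [Set.disjoint_left]
  rintro ⟨x, y⟩ ⟨u, v, hu, hv, huv⟩ ⟨u', v', hu', hv', huv'⟩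
  rw [huv, Prod.mk.injEq] at huv'
  obtain ⟨e1, e2⟩ := huv'
  unfold px at e1
  unfold py at e2
  rw [← hK, ← hK'] at e1 e2
  rw [← hK] at a3 a4
  rw [← hK'] at b3 b4
  have f1 := congrArg Real.log e1
  have f2 := congrArg Real.log e2
  rw [coord (n := n) a3 a1 hn, coord (n := n) b3 b1 hn] at f1
  rw [coord (n := n) a3 a2 hn, coord (n := n) b3 b2 hn] at f2
  have hdiv : ∀ w : ℝ, |w| ≤ B → |w / (ell n : ℝ)| ≤ B / ell n := by
    intro w hw
    rw [abs_div, abs_of_pos hellr]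
    exact div_le_div_of_nonneg_right hw hellr.le
  have g1 := abs_shift f1 (hdiv u hu) (hdiv u' hu')
  have g2 := abs_shift f2 (hdiv v hv) (hdiv v' hv')
  have hsum : ∀ I J K : ℕ, I + J + K = n → (I : ℝ) / n + (J : ℝ) / n + (K : ℝ) / n = 1 := by
    intro I J K h
    rw [← add_div, ← add_div, div_eq_one_iff_eq hnr.ne']
    exact_mod_cast h
  have hpos : ∀ I : ℕ, 0 < I → (0 : ℝ) < (I : ℝ) / n := by
    intro I hI
    have : (0 : ℝ) < I := by exact_mod_cast hI
    positivity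
  have key := sep (hpos _ a1) (hpos _ a2) (hpos _ a3) (hpos _ b1) (hpos _ b2) (hpos _ b3)
    (hsum _ _ _ a4) (hsum _ _ _ b4) g1 g2
  have hlow : ∀ I I' : ℕ, (I + D * ell n ≤ I' ∨ I' + D * ell n ≤ I) →
      (D : ℝ) * ell n / n ≤ |(I : ℝ) / n - (I' : ℝ) / n| := by
    intro I I' h
    rw [← sub_div, abs_div, abs_of_pos hnr]
    apply div_le_div_of_nonneg_right _ hnr.le
    rcases h with h | h
    · have h' : (I : ℝ) + D * ell n ≤ I' := by exact_mod_cast h
      have := neg_abs_le ((I : ℝ) - I')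
      linarith
    · have h' : (I' : ℝ) + D * ell n ≤ I := by exact_mod_cast h
      have := le_abs_self ((I : ℝ) - I')
      linarith
  have hfin : (D : ℝ) * ell n / n ≤ 4 * (2 * (B / ell n)) := by
    rcases hsep with h | h | h | h
    · have := hlow I I' (Or.inl h)
      have := abs_nonneg ((J : ℝ) / n - (J' : ℝ) / n)
      linarith
    · have := hlow I I' (Or.inr h)
      have := abs_nonneg ((J : ℝ) / n - (J' : ℝ) / n)
      linarith
    · have := hlow J J' (Or.inl h)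
      have := abs_nonneg ((I : ℝ) / n - (I' : ℝ) / n)
      linarith
    · have := hlow J J' (Or.inr h)
      have := abs_nonneg ((I : ℝ) / n - (I' : ℝ) / n)
      linarith
  have hDB : 32 * B + 1 ≤ (D : ℝ) := by
    rw [hD]
    push_cast
    have := Nat.le_ceil (32 * B)
    linarith
  have hfin2 : (D : ℝ) * ell n * ell n ≤ 8 * B * n := by
    have h1 : 4 * (2 * (B / ell n)) = 8 * B / ell n := by ring
    rw [h1, div_le_div_iff₀ hnr hellr] at hfin
    exact hfin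
  have hn4 : (n : ℝ) ≤ 4 * (ell n * ell n) := by exact_mod_cast hell2
  have h5 : 8 * B * n ≤ 8 * B * (4 * (ell n * ell n)) :=
    mul_le_mul_of_nonneg_left hn4 (by positivity)
  have h6 : (0 : ℝ) < (ell n : ℝ) * ell n := by positivity
  nlinarith

theorem sqrt_pow' (x : ℝ) (hx : 0 ≤ x) (k : ℕ) : √x ^ k = √(x ^ k) := by
  rw [Real.sqrt_eq_rpow, Real.sqrt_eq_rpow, ← Real.rpow_natCast, ← Real.rpow_mul hx,
    ← Real.rpow_natCast, ← Real.rpow_mul hx, mul_comm]

theorem weight {n I J : ℕ} (hI : 0 < I) (hJ : 0 < J) (hIJ : I + J < n) {m : ℕ × ℕ}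
    (hm : m.1 + m.2 ≤ n) :
    wt n m * (√((I : ℝ) / ((n - I - J : ℕ) : ℝ)) ^ m.1 *
      √((J : ℝ) / ((n - I - J : ℕ) : ℝ)) ^ m.2) =
      √(((n : ℝ) / ((n - I - J : ℕ) : ℝ)) ^ n) * sp n I J m := by
  obtain ⟨K, hK⟩ : ∃ K, K = n - I - J := ⟨_, rfl⟩
  unfold sp pr wt
  rw [← hK]
  have hK0 : 0 < K := by omega
  have hK' : (0 : ℝ) < K := by exact_mod_cast hK0
  have hI' : (0 : ℝ) < I := by exact_mod_cast hI
  have hJ' : (0 : ℝ) < J := by exact_mod_cast hJ
  have hn' : (0 : ℝ) < n := by exact_mod_cast (by omega : 0 < n)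
  obtain ⟨i, j⟩ := m
  obtain ⟨k, hk⟩ : ∃ k, n = i + j + k := ⟨n - i - j, by simp only at hm; omega⟩
  have hk' : n - i - j = k := by omega
  simp only [hk']
  obtain ⟨C, hC⟩ : ∃ C : ℝ, C = (n.factorial : ℝ) / (i.factorial * j.factorial * k.factorial) :=
    ⟨_, rfl⟩
  rw [← hC]
  have hC0 : 0 ≤ C := by rw [hC]; positivity
  rw [sqrt_pow' _ (by positivity), sqrt_pow' _ (by positivity), ← Real.sqrt_mul (by positivity),
    ← Real.sqrt_mul hC0, ← Real.sqrt_mul (by positivity)]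
  congr 1
  have e1 : ((n : ℝ) / K) ^ n = ((n : ℝ) / K) ^ i * ((n : ℝ) / K) ^ j * ((n : ℝ) / K) ^ k := by
    rw [← pow_add, ← pow_add, ← hk]
  rw [e1]
  have q1 : ((I : ℝ) / K) ^ i = ((n : ℝ) / K) ^ i * ((I : ℝ) / n) ^ i := by
    rw [← mul_pow]
    congr 1
    field_simp
  have q2 : ((J : ℝ) / K) ^ j = ((n : ℝ) / K) ^ j * ((J : ℝ) / n) ^ j := by
    rw [← mul_pow]
    congr 1
    field_simp
  have q3 : ((n : ℝ) / K) ^ k * ((K : ℝ) / n) ^ k = 1 := by
    rw [← mul_pow]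
    have : (n : ℝ) / K * ((K : ℝ) / n) = 1 := by field_simp
    rw [this, one_pow]
  rw [q1, q2]
  calc C * (((n : ℝ) / K) ^ i * ((I : ℝ) / n) ^ i * (((n : ℝ) / K) ^ j * ((J : ℝ) / n) ^ j))
      = C * (((n : ℝ) / K) ^ i * ((I : ℝ) / n) ^ i * (((n : ℝ) / K) ^ j * ((J : ℝ) / n) ^ j)) *
        1 := by ring
    _ = C * (((n : ℝ) / K) ^ i * ((I : ℝ) / n) ^ i * (((n : ℝ) / K) ^ j * ((J : ℝ) / n) ^ j)) *
        (((n : ℝ) / K) ^ k * ((K : ℝ) / n) ^ k) := by rw [q3]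
    _ = _ := by ring

theorem fld_all : S_FLD := by
  intro n I J hI hJ hIJ u v
  have hn0 : 0 < n := by omega
  have hell : 1 ≤ ell n := by
    show 1 ≤ Nat.sqrt n
    exact Nat.sqrt_pos.2 hn0
  have hellr : (0 : ℝ) < ell n := by exact_mod_cast hell
  have hnr : (0 : ℝ) < n := by exact_mod_cast hn0
  have hK : 0 < n - I - J := by omega
  have hKr : (0 : ℝ) < ((n - I - J : ℕ) : ℝ) := by exact_mod_cast hK
  refine ⟨√(((n : ℝ) / ((n - I - J : ℕ) : ℝ)) ^ n) * Real.exp ((I * u + J * v) / ell n),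
    mul_pos (Real.sqrt_pos.2 (by positivity)) (Real.exp_pos _), ?_⟩
  intro a
  unfold loc
  rw [Finset.mul_sum]
  refine Finset.sum_congr rfl ?_
  intro m hm
  rw [mem_tri] at hm
  have h1 := weight hI hJ hIJ hm
  unfold px py
  rw [mul_pow, mul_pow, ← Real.exp_nat_mul, ← Real.exp_nat_mul]
  have h2 : Real.exp ((m.1 : ℝ) * (u / ell n)) * Real.exp ((m.2 : ℝ) * (v / ell n)) =
      Real.exp ((I * u + J * v) / ell n) * Real.exp (sx n I m.1 * u + sx n J m.2 * v) := by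
    rw [← Real.exp_add, ← Real.exp_add]
    congr 1
    unfold sx
    field_simp
    ring
  calc wt n m * a m * (√((I : ℝ) / ((n - I - J : ℕ) : ℝ)) ^ m.1 *
        Real.exp ((m.1 : ℝ) * (u / ell n)) * (√((J : ℝ) / ((n - I - J : ℕ) : ℝ)) ^ m.2 *
        Real.exp ((m.2 : ℝ) * (v / ell n))))
      = (wt n m * (√((I : ℝ) / ((n - I - J : ℕ) : ℝ)) ^ m.1 *
          √((J : ℝ) / ((n - I - J : ℕ) : ℝ)) ^ m.2)) * a m *
        (Real.exp ((m.1 : ℝ) * (u / ell n)) * Real.exp ((m.2 : ℝ) * (v / ell n))) := by ring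
    _ = _ := by
        rw [h1, h2]
        ring

end Pool.Agent.Y232.KS
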